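import Pool.Agent.R539.PS.Fin0
import Pool.Agent.R539.PS.T1
import Pool.Agent.NPC.Sat2

/-!
# The path-stabbing number: NP-hardness

Given a finite set `S` of at least two points of the plane with rational coordinates (in binary)
and a number `k`, it is NP-hard to decide whether `S` has a spanning path such that every line of
the plane stabs at most `k` edges of it.

The reduction is from 3SAT, through Hamiltonian paths between two corners of a set of grid cells,
with unit steps.  Copies of the set of cells, suitably scaled, reflected and shifted, are the tiles
of a big array with rows and columns at exponentially growing distances, so that essentially only
the vertical and the horizontal lines matter, see `departures/helper539.md`.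
-/

namespace Pool.Agent.Results.MP_a4672b_lc.PathStabbingNPHard

open Pool.Agent.NPC Pool.Agent.R539

/-- It is NP-hard to decide, for a finite set `S` of at least two rational points and a number `k`,
whether the path-stabbing number of `S` is at most `k`. -/
theorem result : NPHardP PathStab :=
  (hardPr_SAT3b.trans (Pr' := fun _ => True) (Q := PathStab) poly_inst (fun _ _ => trivial)
    (fun φ h => reduction_correct (fun hm lit hnd hp => grid_onlyif hm lit hnd hp) φ
      h.1 h.2.1 h.2.2)).toHardI.toNPHardP

end Pool.Agent.Results.MP_a4672b_lc.PathStabbingNPHard
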